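import Mathlib
import Pool.Agent.H664.QK.Stm

set_option autoImplicit false

open MvPolynomial Cardinal Pool.Agent.H664.QK

namespace Pool.Agent.H106.QK

/-- clearing denominators -/
theorem clear {K ι κ E : Type*} [Field K] [Field E] [Algebra K E]
    (M : MvPolynomial κ K) (P : ι → MvPolynomial κ K) (f : MvPolynomial ι K) :
    ∃ (n : ℕ) (G : MvPolynomial κ K), ∀ (v : κ → E) (x : ι → E),
      (∀ i, x i * aeval v M = aeval v (P i)) → aeval x f * aeval v M ^ n = aeval v G := by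
  induction f using MvPolynomial.induction_on with
  | C c => exact ⟨0, C c, fun v x _ => by simp⟩
  | add f g hf hg =>
    obtain ⟨n1, G1, h1⟩ := hf
    obtain ⟨n2, G2, h2⟩ := hg
    refine ⟨n1 + n2, G1 * M ^ n2 + G2 * M ^ n1, fun v x h => ?_⟩
    rw [map_add, map_add, map_mul, map_mul, map_pow, map_pow, ← h1 v x h, ← h2 v x h]
    ring
  | mul_X f i hf =>
    obtain ⟨n1, G1, h1⟩ := hf
    refine ⟨n1 + 1, G1 * P i, fun v x h => ?_⟩
    rw [map_mul, map_mul, aeval_X, ← h1 v x h, ← h i]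
    ring

/-- exponentials of integral multiples -/
theorem exp_toNat (z : ℂ) (m : ℤ) (hm : 0 ≤ m) : Complex.exp z ^ m.toNat = Complex.exp (m * z) := by
  rw [Complex.exp_int_mul, ← zpow_natCast, Int.toNat_of_nonneg hm]

/-- the substitution of affine combinations -/
theorem subst (K : Subfield ℂ) (hexp : ∀ z ∈ K, Complex.exp z ∈ K) {N p : ℕ}
    (κ : Fin N → ℂ) (hκ : ∀ i, κ i ∈ K) (c : Fin N → ℤ) (C' : Fin N → Fin p → ℤ)
    (f : MvPolynomial (Fin N ⊕ Fin N) K) :
    ∃ G : MvPolynomial ((Fin 1 ⊕ Fin 1) ⊕ (Fin p ⊕ Fin p)) K, ∀ (a : ℂ) (w : Fin p → ℂ),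
      (aeval (ex (fun i => κ i + c i * a + ∑ j, (C' i j : ℂ) * w j)) f = 0 ↔
        aeval (Sum.elim (ex (fun _ : Fin 1 => a)) (ex w)) G = 0) := by
  obtain ⟨D, hD1, hD2⟩ : ∃ D : ℕ, (∀ i, 0 ≤ c i + D) ∧ ∀ i j, 0 ≤ C' i j + D := by
    refine ⟨∑ i, (c i).natAbs + ∑ i, ∑ j, (C' i j).natAbs, fun i => ?_, fun i j => ?_⟩
    · have h1 : (c i).natAbs ≤ ∑ i, (c i).natAbs :=
        Finset.single_le_sum (f := fun i => (c i).natAbs) (fun _ _ => Nat.zero_le _)
          (Finset.mem_univ i)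
      omega
    · have h1 : (C' i j).natAbs ≤ ∑ j, (C' i j).natAbs :=
        Finset.single_le_sum (f := fun j => (C' i j).natAbs) (fun _ _ => Nat.zero_le _)
          (Finset.mem_univ j)
      have h2 : ∑ j, (C' i j).natAbs ≤ ∑ i, ∑ j, (C' i j).natAbs :=
        Finset.single_le_sum (f := fun i => ∑ j, (C' i j).natAbs) (fun _ _ => Nat.zero_le _)
          (Finset.mem_univ i)
      omega
  set M : MvPolynomial ((Fin 1 ⊕ Fin 1) ⊕ (Fin p ⊕ Fin p)) K :=
    (X (Sum.inl (Sum.inr 0)) * ∏ j : Fin p, X (Sum.inr (Sum.inr j))) ^ D with hM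
  set P : Fin N ⊕ Fin N → MvPolynomial ((Fin 1 ⊕ Fin 1) ⊕ (Fin p ⊕ Fin p)) K :=
    Sum.elim (fun i => (C ⟨κ i, hκ i⟩ + C ((c i : ℤ) : K) * X (Sum.inl (Sum.inl 0)) +
      ∑ j, C ((C' i j : ℤ) : K) * X (Sum.inr (Sum.inl j))) * M)
    (fun i => C ⟨Complex.exp (κ i), hexp _ (hκ i)⟩ * X (Sum.inl (Sum.inr 0)) ^ (c i + D).toNat *
      ∏ j : Fin p, X (Sum.inr (Sum.inr j)) ^ (C' i j + D).toNat) with hP
  obtain ⟨n, G, hG⟩ := clear (E := ℂ) M P f
  refine ⟨G, fun a w => ?_⟩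
  set v : (Fin 1 ⊕ Fin 1) ⊕ (Fin p ⊕ Fin p) → ℂ := Sum.elim (ex (fun _ : Fin 1 => a)) (ex w) with hv
  have vA : v (Sum.inl (Sum.inl 0)) = a := rfl
  have vE : v (Sum.inl (Sum.inr 0)) = Complex.exp a := rfl
  have vw : ∀ j, v (Sum.inr (Sum.inl j)) = w j := fun _ => rfl
  have vew : ∀ j, v (Sum.inr (Sum.inr j)) = Complex.exp (w j) := fun _ => rfl
  have hMv : aeval v M = Complex.exp (D * (a + ∑ j, w j)) := by
    rw [hM, map_pow, map_mul, map_prod, aeval_X, vE]
    simp only [aeval_X, vew]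
    rw [← Complex.exp_sum, ← Complex.exp_add, ← Complex.exp_nat_mul]
  have key := hG v (ex (fun i => κ i + c i * a + ∑ j, (C' i j : ℂ) * w j)) (by
    rintro (i | i)
    · rw [hP]
      simp only [Sum.elim_inl, map_mul, map_add, map_sum, aeval_C, aeval_X, vA, vw]
      rfl
    · rw [hP, hMv]
      simp only [Sum.elim_inr, map_mul, map_prod, map_pow, aeval_C, aeval_X, vE, vew]
      rw [exp_toNat _ _ (hD1 i), Finset.prod_congr rfl fun j _ => exp_toNat (w j) _ (hD2 i j),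
        ← Complex.exp_sum]
      show Complex.exp (κ i + c i * a + ∑ j, (C' i j : ℂ) * w j) * _ =
        Complex.exp (κ i) * _ * _
      rw [← Complex.exp_add, ← Complex.exp_add, ← Complex.exp_add]
      congr 1
      push_cast
      simp only [add_mul, Finset.sum_add_distrib, ← Finset.mul_sum]
      ring)
  rw [← key, hMv]
  constructor
  · intro h; rw [h, zero_mul]
  · intro h
    exact (mul_eq_zero.1 h).resolve_right (pow_ne_zero _ (Complex.exp_ne_zero _))

theorem closure_equiv {F₁ F₂ : Type} [Field F₁] [Field F₂] [Algebra F₁ ℂ] [Algebra F₂ ℂ]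
    (e : F₁ ≃+* F₂) : ∃ σ : algebraicClosure F₁ ℂ ≃+* algebraicClosure F₂ ℂ,
      ∀ s, σ (algebraMap _ _ s) = algebraMap _ _ (e s) :=
  ⟨IsAlgClosure.equivOfEquiv _ _ e, fun s => IsAlgClosure.equivOfEquiv_algebraMap _ _ e s⟩

/-- algebraically independent exponential tuples are isomorphic -/
theorem iso_of_indep (K : Subfield ℂ) {q : ℕ} (t t' : Fin q → ℂ)
    (h : AlgebraicIndependent K (ex t)) (h' : AlgebraicIndependent K (ex t')) : Iso K t t' := by
  let e : IntermediateField.adjoin K (Set.range (ex t)) ≃ₐ[K]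
      IntermediateField.adjoin K (Set.range (ex t')) :=
    h.aevalEquivField.symm.trans h'.aevalEquivField
  have he : ∀ (i : Fin q ⊕ Fin q) (hi : ex t i ∈ IntermediateField.adjoin K (Set.range (ex t))),
      (e ⟨ex t i, hi⟩ : ℂ) = ex t' i := by
    intro i hi
    have h1 : h.aevalEquivField (algebraMap _ _ (X i : MvPolynomial (Fin q ⊕ Fin q) K)) =
        ⟨ex t i, hi⟩ := by
      apply Subtype.ext
      rw [h.aevalEquivField_algebraMap_apply_coe, aeval_X]
    have h2 : h.aevalEquivField.symm ⟨ex t i, hi⟩ =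
        algebraMap _ _ (X i : MvPolynomial (Fin q ⊕ Fin q) K) := by
      rw [← h1, AlgEquiv.symm_apply_apply]
    show ((h'.aevalEquivField (h.aevalEquivField.symm ⟨ex t i, hi⟩) :
      IntermediateField.adjoin K (Set.range (ex t'))) : ℂ) = ex t' i
    rw [h2, h'.aevalEquivField_algebraMap_apply_coe, aeval_X]
  obtain ⟨σ, hσ⟩ := closure_equiv e.toRingEquiv
  refine ⟨σ, ?_, ?_, ?_⟩
  · intro a ha
    have h1 : a = algebraMap (IntermediateField.adjoin K (Set.range (ex t)))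
        (algebraicClosure (IntermediateField.adjoin K (Set.range (ex t))) ℂ)
        (algebraMap K _ ⟨(a : ℂ), ha⟩) := Subtype.ext rfl
    have h2 := hσ (algebraMap K _ ⟨(a : ℂ), ha⟩)
    rw [← h1] at h2
    refine (congrArg Subtype.val h2).trans ?_
    exact congrArg Subtype.val (e.commutes ⟨(a : ℂ), ha⟩)
  · intro a i ha
    have hi : ex t (Sum.inl i) ∈ IntermediateField.adjoin K (Set.range (ex t)) :=
      IntermediateField.subset_adjoin _ _ ⟨_, rfl⟩
    have h1 : a = algebraMap (IntermediateField.adjoin K (Set.range (ex t)))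
        (algebraicClosure (IntermediateField.adjoin K (Set.range (ex t))) ℂ)
        ⟨ex t (Sum.inl i), hi⟩ := Subtype.ext ha
    have h2 := hσ ⟨ex t (Sum.inl i), hi⟩
    rw [← h1] at h2
    exact (congrArg Subtype.val h2).trans (he (Sum.inl i) hi)
  · intro a i ha
    have hi : ex t (Sum.inr i) ∈ IntermediateField.adjoin K (Set.range (ex t)) :=
      IntermediateField.subset_adjoin _ _ ⟨_, rfl⟩
    have h1 : a = algebraMap (IntermediateField.adjoin K (Set.range (ex t)))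
        (algebraicClosure (IntermediateField.adjoin K (Set.range (ex t))) ℂ)
        ⟨ex t (Sum.inr i), hi⟩ := Subtype.ext ha
    have h2 := hσ ⟨ex t (Sum.inr i), hi⟩
    rw [← h1] at h2
    exact (congrArg Subtype.val h2).trans (he (Sum.inr i) hi)

theorem ind_one (K : Subfield ℂ) {a : ℂ} (ha : a ∉ K) : Ind K (fun _ : Fin 1 => a) := by
  intro m hm
  simp only [Finset.univ_unique, Fin.default_eq_zero, Fin.isValue, Finset.sum_singleton] at hm
  by_contra hne
  have h0 : m 0 ≠ 0 := by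
    intro h
    apply hne
    funext i
    rw [Subsingleton.elim i 0, h]; rfl
  apply ha
  have h1 : a = ((m 0 : ℤ) : ℂ)⁻¹ * ((m 0 : ℂ) * a) := by
    rw [← mul_assoc, inv_mul_cancel₀ (by exact_mod_cast h0), one_mul]
  rw [h1]
  exact K.mul_mem (K.inv_mem (intCast_mem K _)) hm

theorem not_mem_of_ind (K : Subfield ℂ) {p : ℕ} {a : ℂ} {w : Fin p → ℂ}
    (h : Ind K (Fin.append (fun _ : Fin 1 => a) w)) : a ∉ K := by
  intro ha
  have h1 := h (Fin.append (fun _ : Fin 1 => (1 : ℤ)) (fun _ => 0)) (by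
    rw [Fin.sum_univ_add]
    simp only [Fin.append_left, Fin.append_right]
    simpa using ha)
  have h2 := congrFun h1 (Fin.castAdd p 0)
  rw [Fin.append_left] at h2
  exact one_ne_zero h2

theorem indep_one (K : Subfield ℂ) (hK : Str K) {a : ℂ} (ha : a ∉ K) :
    AlgebraicIndependent K (ex (fun _ : Fin 1 => a)) := by
  obtain ⟨J, hJ, hJi⟩ := hK.tr 1 _ one_pos (ind_one K ha)
  have h1 : J = Finset.univ := by
    rw [← Finset.card_eq_iff_eq_univ, hJ]; rfl
  have h2 : ∀ i, i ∈ J := fun i => by rw [h1]; exact Finset.mem_univ i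
  exact hJi.comp (fun i => (⟨i, h2 i⟩ : J)) (fun i j hij => congrArg Subtype.val hij)

theorem sta_one (K : Subfield ℂ) (hK : Str K) {a a' : ℂ} (ha : a ∉ K) (ha' : a' ∉ K) :
    Sta K (fun _ : Fin 1 => a) (fun _ : Fin 1 => a') where
  pos := one_pos
  ind := ind_one K ha
  ind' := ind_one K ha'
  tight := by
    rintro ⟨J, hJ, -⟩
    have h1 := Finset.card_le_univ J
    rw [hJ] at h1
    simp only [Fintype.card_sum, Fintype.card_fin] at h1
    omega
  iso := iso_of_indep K _ _ (indep_one K hK ha) (indep_one K hK ha')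

theorem fin (h1 : S_ind) (h2 : S_latb) (h3 : S_kcl) (h4 : S_kpr) (h5 : S_pk) : S_fin := by
  intro N hF W
  -- a finite subset
  obtain ⟨W', hWs, hWsp⟩ := (Submodule.fg_span_iff_fg_span_finset_subset W).1
    (IsNoetherian.noetherian (Submodule.span (MvPolynomial (Fin (N + 1) ⊕ Fin (N + 1)) ℂ) W))
  have hWW : ∀ q : Fin (N + 1) ⊕ Fin (N + 1) → ℂ, (∀ f ∈ W', eval q f = 0) →
      ∀ f ∈ W, eval q f = 0 := by
    intro q hq f hf
    have e1 : (Submodule.span (MvPolynomial (Fin (N + 1) ⊕ Fin (N + 1)) ℂ) (W' : Set _)) ≤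
        RingHom.ker (eval q) := by
      rw [Submodule.span_le]
      exact fun g hg => hq g hg
    exact e1 (hWsp ▸ Submodule.subset_span hf)
  -- the countable subfield
  obtain ⟨K, hKc, hAK, hKh⟩ := h3 (⋃ f ∈ (W' : Set (MvPolynomial (Fin (N + 1) ⊕ Fin (N + 1)) ℂ)),
    Set.range fun m => coeff m f)
    (W'.countable_toSet.biUnion fun f _ => Set.countable_range _)
  obtain ⟨hKa, hKe, hKl⟩ := h4 K hKh
  have hStr : Str K := ⟨hKc, hKa, hKe, hKl, fun r t hr ht => h5 K hKh r t hr ht⟩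
  have hco : ∀ f ∈ W', ∃ g : MvPolynomial (Fin (N + 1) ⊕ Fin (N + 1)) K,
      ∀ q : Fin (N + 1) ⊕ Fin (N + 1) → ℂ, aeval q g = eval q f := by
    intro f hf
    have hc : ∀ m, coeff m f ∈ K := fun m => hAK (Set.mem_biUnion (Finset.mem_coe.2 hf) ⟨m, rfl⟩)
    refine ⟨∑ m ∈ f.support, monomial m ⟨coeff m f, hc m⟩, fun q => ?_⟩
    conv_rhs => rw [f.as_sum]
    rw [map_sum, map_sum]
    refine Finset.sum_congr rfl fun m _ => ?_
    rw [aeval_monomial, eval_monomial]
    rfl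
  by_cases hX : {s : ℂ | ∃ z : Fin N → ℂ, ∀ f ∈ W,
      eval (ex (Fin.cons s z : Fin (N + 1) → ℂ)) f = 0} ⊆ (K : Set ℂ)
  · exact Or.inl (hKc.mono hX)
  right
  refine hKc.mono fun s' hs' => ?_
  by_contra hs'K
  apply hs'
  obtain ⟨s, ⟨z, hz⟩, hsK⟩ := Set.not_subset.1 hX
  obtain ⟨p, a, w, κ, c, C', hp, hind, hκ, hu, hC0, hc0⟩ :=
    h2 K N (Fin.cons s z) (by simpa using hsK)
  have ha : a ∉ K := not_mem_of_ind K hind
  have hc0' : ((c 0 : ℤ) : ℂ) ≠ 0 := by exact_mod_cast hc0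
  set a' : ℂ := (s' - κ 0) / c 0 with ha'def
  have hs'e : s' = κ 0 + c 0 * a' := by
    rw [ha'def]; field_simp; ring
  have ha' : a' ∉ K := by
    intro h
    apply hs'K
    show s' ∈ K
    rw [hs'e]
    exact K.add_mem (hκ 0) (K.mul_mem (intCast_mem K _) h)
  obtain ⟨w', hw'⟩ := h1 N hF K hStr p hp 1 _ _ (sta_one K hStr ha ha') w hind
  refine ⟨fun i => κ i.succ + c i.succ * a' + ∑ j, (C' i.succ j : ℂ) * w' j, ?_⟩
  have hu1 : (Fin.cons s z : Fin (N + 1) → ℂ) =
      fun i => κ i + c i * a + ∑ j, (C' i j : ℂ) * w j := funext hu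
  have hu2 : (Fin.cons s' (fun i => κ i.succ + c i.succ * a' + ∑ j, (C' i.succ j : ℂ) * w' j) :
      Fin (N + 1) → ℂ) = fun i => κ i + c i * a' + ∑ j, (C' i j : ℂ) * w' j := by
    funext i
    refine Fin.cases ?_ (fun i => ?_) i
    · rw [Fin.cons_zero, hC0]
      simp only [Pi.zero_apply, Int.cast_zero, zero_mul, Finset.sum_const_zero, add_zero]
      exact hs'e
    · rw [Fin.cons_succ]
  rw [hu2]
  apply hWW
  intro f hf
  obtain ⟨g, hg⟩ := hco f hf
  obtain ⟨G, hG⟩ := subst K hKe κ hκ c C' g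
  rw [← hg, hG]
  apply hw'
  rw [← hG, hg, ← hu1]
  exact hz f (hWs hf)

end Pool.Agent.H106.QK
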